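import Pool.Agent.Helper42.TZ.Gen
import Pool.Agent.Helper42.HC.QS

/-!
# Project TZ (MP_0f6f3f_an): `SL(m, ℝ)`, `SL(m, ℂ)`, `SL(m, ℍ)` are groups `SG`
-/

set_option autoImplicit false
set_option linter.unusedSectionVars false

open Matrix Topology

namespace Pool.Agent.Helper42.TZ

open Pool.Agent.Helper84.SPQ Pool.Agent.Helper42.HC
open Pool.Agent.Helper96.HN (SLH val val_mul val_one val_inj det_val val_J continuous_val isClosedEmbedding_val)

/-- `SL(m, K)`, `K = ℝ, ℂ` -/
def sgF (K : Type) [NormedField K] [NormedAlgebra ℝ K] (m : ℕ) : SG K m (SpecialLinearGroup (Fin m) K) where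
  φ := { toFun := fun g => g.1, map_one' := rfl, map_mul' := fun _ _ => rfl }
  emb := by
    have h1 : IsClosed {A : Matrix (Fin m) (Fin m) K | A.det = 1} :=
      isClosed_eq (by fun_prop) continuous_const
    exact h1.isClosedEmbedding_subtypeVal
  tv v f h := by
    refine ⟨⟨1 + vecMulVec v f, ?_⟩, rfl⟩
    rw [vecMulVec_eq Unit, det_one_add_replicateCol_mul_replicateRow, h, add_zero]

theorem sgF_apply (K : Type) [NormedField K] [NormedAlgebra ℝ K] (m : ℕ) (g : SpecialLinearGroup (Fin m) K) :
    (sgF K m).φ g = g.1 := rfl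

section H

variable {m : ℕ}

theorem qc_add (p q : Hq) : qc (p + q) = qc p + qc q := by
  apply Complex.ext
  · rfl
  · rfl

theorem qd_add (p q : Hq) : qd (p + q) = qd p + qd q := by
  apply Complex.ext
  · rfl
  · rw [Complex.add_im, qd_im, qd_im, qd_im, Quaternion.imK_add]
    ring

theorem qc_mul (p q : Hq) : qc (p * q) = qc p * qc q - starRingEnd ℂ (qd p) * qd q := by
  conv_lhs => rw [← qi_cd p, ← qi_cd q, ← qi_mul, qc_qi]

theorem qd_mul (p q : Hq) : qd (p * q) = qd p * qc q + starRingEnd ℂ (qc p) * qd q := by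
  conv_lhs => rw [← qi_cd p, ← qi_cd q, ← qi_mul, qd_qi]

theorem qc_zero : qc 0 = 0 := rfl

theorem qd_zero : qd 0 = 0 := by
  apply Complex.ext
  · rfl
  · show -(0 : ℝ) = 0
    rw [neg_zero]

theorem qc_one : qc 1 = 1 := rfl

theorem qd_one : qd 1 = 0 := by
  apply Complex.ext
  · rfl
  · show -(0 : ℝ) = 0
    rw [neg_zero]

/-- `qc` as a homomorphism of additive groups -/
def qcH : Hq →+ ℂ where
  toFun := qc
  map_zero' := qc_zero
  map_add' := qc_add

/-- `qd` as a homomorphism of additive groups -/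
def qdH : Hq →+ ℂ where
  toFun := qd
  map_zero' := qd_zero
  map_add' := qd_add

theorem qc_sum {ι : Type} (s : Finset ι) (f : ι → Hq) : qc (∑ i ∈ s, f i) = ∑ i ∈ s, qc (f i) := map_sum qcH f s

theorem qd_sum {ι : Type} (s : Finset ι) (f : ι → Hq) : qd (∑ i ∈ s, f i) = ∑ i ∈ s, qd (f i) := map_sum qdH f s

theorem qi_zero_zero : qi 0 0 = 0 := qi_zero

theorem qi_sum {ι : Type} (s : Finset ι) (f g : ι → ℂ) : qi (∑ i ∈ s, f i) (∑ i ∈ s, g i) = ∑ i ∈ s, qi (f i) (g i) := by
  classical
  induction s using Finset.induction_on with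
  | empty =>
    rw [Finset.sum_empty, Finset.sum_empty, Finset.sum_empty, qi_zero]
  | insert a s ha ih => rw [Finset.sum_insert ha, Finset.sum_insert ha, Finset.sum_insert ha, qi_add, ih]

theorem blocksG (g : SLH m) (i j : Fin m) : val g (Sum.inl i) (Sum.inr j) = -starRingEnd ℂ (val g (Sum.inr i) (Sum.inl j)) ∧
    val g (Sum.inr i) (Sum.inr j) = starRingEnd ℂ (val g (Sum.inl i) (Sum.inl j)) := by
  obtain ⟨A, C, B, D, hM⟩ : ∃ A C B D, val g = fromBlocks A C B D :=
    ⟨_, _, _, _, (fromBlocks_toBlocks _).symm⟩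
  have h4 := val_J g
  rw [hM, fromBlocks_map, J, fromBlocks_multiply, fromBlocks_multiply, fromBlocks_inj] at h4
  simp only [Matrix.zero_mul, Matrix.mul_zero, add_zero, zero_add, Matrix.one_mul, Matrix.mul_one, Matrix.neg_mul,
    Matrix.mul_neg] at h4
  obtain ⟨h1, -, h3, -⟩ := h4
  rw [hM]
  constructor
  · show C i j = -starRingEnd ℂ (B i j)
    rw [h1]
    rfl
  · show D i j = starRingEnd ℂ (A i j)
    rw [h3]
    rfl

/-- the quaternionic matrix of an element of `SL(m, ℍ)` -/
noncomputable def fH (m : ℕ) : SLH m →* Matrix (Fin m) (Fin m) Hq where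
  toFun g := Matrix.of fun i j => qi (val g (Sum.inl i) (Sum.inl j)) (val g (Sum.inr i) (Sum.inl j))
  map_one' := by
    rw [val_one]
    refine Matrix.ext fun i j => ?_
    rw [Matrix.of_apply]
    have h1 : (1 : Matrix (Fin m ⊕ Fin m) (Fin m ⊕ Fin m) ℂ) (Sum.inr i) (Sum.inl j) = 0 :=
      Matrix.one_apply_ne (by simp)
    rw [h1]
    by_cases hij : i = j
    · subst hij
      rw [Matrix.one_apply_eq, Matrix.one_apply_eq, qi_one]
    · rw [Matrix.one_apply_ne hij, Matrix.one_apply_ne (by simpa using hij), qi_zero]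
  map_mul' g h := by
    refine Matrix.ext fun i j => ?_
    rw [Matrix.of_apply, Matrix.mul_apply, val_mul, Matrix.mul_apply, Matrix.mul_apply, Fintype.sum_sum_type,
      Fintype.sum_sum_type]
    simp only [Matrix.of_apply]
    rw [← Finset.sum_add_distrib, ← Finset.sum_add_distrib, qi_sum]
    refine Finset.sum_congr rfl fun k _ => ?_
    rw [← qi_mul, (blocksG g i k).1, (blocksG g i k).2]
    congr 1
    ring

theorem fH_apply (g : SLH m) (i j : Fin m) : fH m g i j = qi (val g (Sum.inl i) (Sum.inl j)) (val g (Sum.inr i) (Sum.inl j)) := rfl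

/-- the complex matrix of a quaternionic matrix -/
noncomputable def qM (M : Matrix (Fin m) (Fin m) Hq) : Matrix (Fin m ⊕ Fin m) (Fin m ⊕ Fin m) ℂ :=
  fromBlocks (Matrix.of fun i j => qc (M i j)) (Matrix.of fun i j => -starRingEnd ℂ (qd (M i j)))
    (Matrix.of fun i j => qd (M i j)) (Matrix.of fun i j => starRingEnd ℂ (qc (M i j)))

theorem qM_fH (g : SLH m) : qM (fH m g) = val g := by
  unfold qM
  refine Matrix.ext fun a b => ?_
  rcases a with i | i <;> rcases b with j | j
  · show qc (fH m g i j) = _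
    rw [fH_apply, qc_qi]
  · show -starRingEnd ℂ (qd (fH m g i j)) = _
    rw [fH_apply, qd_qi, (blocksG g i j).1]
  · show qd (fH m g i j) = _
    rw [fH_apply, qd_qi]
  · show starRingEnd ℂ (qc (fH m g i j)) = _
    rw [fH_apply, qc_qi, (blocksG g i j).2]

theorem continuous_qM : Continuous (qM : Matrix (Fin m) (Fin m) Hq → _) := by
  unfold qM
  have h : ∀ i j : Fin m, Continuous fun M : Matrix (Fin m) (Fin m) Hq => M i j := fun i j => continuous_id.matrix_elem i j
  refine Continuous.matrix_fromBlocks ?_ ?_ ?_ ?_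
  · exact continuous_matrix fun i j => continuous_qc.comp (h i j)
  · exact continuous_matrix fun i j => (Complex.continuous_conj.comp (continuous_qd.comp (h i j))).neg
  · exact continuous_matrix fun i j => continuous_qd.comp (h i j)
  · exact continuous_matrix fun i j => Complex.continuous_conj.comp (continuous_qc.comp (h i j))

theorem continuous_fH : Continuous (fH m) :=
  continuous_matrix fun i j => continuous_qi (continuous_val.matrix_elem _ _) (continuous_val.matrix_elem _ _)

theorem qM_mul (M N : Matrix (Fin m) (Fin m) Hq) : qM (M * N) = qM M * qM N := by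
  unfold qM
  rw [fromBlocks_multiply]
  congr 1
  · refine Matrix.ext fun i j => ?_
    rw [Matrix.add_apply, Matrix.mul_apply, Matrix.mul_apply, Matrix.of_apply, Matrix.mul_apply, qc_sum,
      ← Finset.sum_add_distrib]
    refine Finset.sum_congr rfl fun k _ => ?_
    rw [qc_mul]
    simp only [Matrix.of_apply]
    ring
  · refine Matrix.ext fun i j => ?_
    rw [Matrix.add_apply, Matrix.mul_apply, Matrix.mul_apply, Matrix.of_apply, Matrix.mul_apply, qd_sum,
      ← Finset.sum_add_distrib, map_sum, ← Finset.sum_neg_distrib]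
    refine Finset.sum_congr rfl fun k _ => ?_
    rw [qd_mul]
    simp only [Matrix.of_apply, map_add, map_mul, Complex.conj_conj]
    ring
  · refine Matrix.ext fun i j => ?_
    rw [Matrix.add_apply, Matrix.mul_apply, Matrix.mul_apply, Matrix.of_apply, Matrix.mul_apply, qd_sum,
      ← Finset.sum_add_distrib]
    refine Finset.sum_congr rfl fun k _ => ?_
    rw [qd_mul]
    simp only [Matrix.of_apply]
  · refine Matrix.ext fun i j => ?_
    rw [Matrix.add_apply, Matrix.mul_apply, Matrix.mul_apply, Matrix.of_apply, Matrix.mul_apply, qc_sum,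
      ← Finset.sum_add_distrib, map_sum]
    refine Finset.sum_congr rfl fun k _ => ?_
    rw [qc_mul]
    simp only [Matrix.of_apply, map_sub, map_mul, Complex.conj_conj]
    ring

theorem qM_add (M N : Matrix (Fin m) (Fin m) Hq) : qM (M + N) = qM M + qM N := by
  unfold qM
  rw [fromBlocks_add]
  refine congr (congr (congr (congrArg fromBlocks ?_) ?_) ?_) ?_
  · refine Matrix.ext fun i j => ?_
    exact qc_add _ _
  · refine Matrix.ext fun i j => ?_
    show -starRingEnd ℂ (qd (M i j + N i j)) = -starRingEnd ℂ (qd (M i j)) + -starRingEnd ℂ (qd (N i j))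
    rw [qd_add, map_add]
    ring
  · refine Matrix.ext fun i j => ?_
    exact qd_add _ _
  · refine Matrix.ext fun i j => ?_
    show starRingEnd ℂ (qc (M i j + N i j)) = starRingEnd ℂ (qc (M i j)) + starRingEnd ℂ (qc (N i j))
    rw [qc_add, map_add]

theorem qM_zero : qM (0 : Matrix (Fin m) (Fin m) Hq) = 0 := by
  have h := qM_add (0 : Matrix (Fin m) (Fin m) Hq) 0
  rw [add_zero] at h
  exact left_eq_add.1 h

theorem qM_one : qM (1 : Matrix (Fin m) (Fin m) Hq) = 1 := by
  have h := qM_fH (1 : SLH m)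
  rwa [map_one, val_one] at h

theorem fH_surj (M : Matrix (Fin m) (Fin m) Hq) (h1 : (qM M).det = 1) : ∃ g : SLH m, fH m g = M := by
  have h2 : qM M * J (Fin m) ℂ = J (Fin m) ℂ * (qM M).map (starRingEnd ℂ) := by
    unfold qM
    rw [J, fromBlocks_map, fromBlocks_multiply, fromBlocks_multiply]
    congr 1
    · simp only [Matrix.zero_mul, Matrix.mul_zero, zero_add, Matrix.neg_mul, Matrix.one_mul, Matrix.mul_one]
      refine Matrix.ext fun i j => ?_
      show -starRingEnd ℂ (qd (M i j)) = -(starRingEnd ℂ (qd (M i j)))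
      rfl
    · simp only [Matrix.zero_mul, Matrix.mul_zero, zero_add, add_zero, Matrix.neg_mul, Matrix.one_mul, Matrix.mul_one,
        Matrix.mul_neg]
      refine Matrix.ext fun i j => ?_
      show -qc (M i j) = -(starRingEnd ℂ (starRingEnd ℂ (qc (M i j))))
      rw [Complex.conj_conj]
    · simp only [Matrix.zero_mul, Matrix.mul_zero, zero_add, add_zero, Matrix.one_mul, Matrix.mul_one]
      refine Matrix.ext fun i j => ?_
      rfl
    · simp only [Matrix.zero_mul, Matrix.mul_zero, zero_add, add_zero, Matrix.neg_mul, Matrix.one_mul, Matrix.mul_one,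
        Matrix.mul_neg]
      refine Matrix.ext fun i j => ?_
      show -qd (M i j) = starRingEnd ℂ (-starRingEnd ℂ (qd (M i j)))
      rw [map_neg, Complex.conj_conj]
  refine ⟨⟨⟨qM M, h1⟩, h2⟩, ?_⟩
  refine Matrix.ext fun _ _ => ?_
  show qi (qc (M _ _)) (qd (M _ _)) = M _ _
  exact qi_cd _

theorem fH_emb : IsClosedEmbedding (fH m) := by
  have h1 : IsEmbedding (fH m) := by
    refine IsEmbedding.of_comp continuous_fH continuous_qM ?_
    have e : qM ∘ fH m = val := by
      funext g
      exact qM_fH g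
    rw [e]
    exact isClosedEmbedding_val.isEmbedding
  refine ⟨h1, ?_⟩
  have e : Set.range (fH m) = {M : Matrix (Fin m) (Fin m) Hq | (qM M).det = 1} := by
    ext M
    constructor
    · rintro ⟨g, rfl⟩
      show (qM (fH m g)).det = 1
      rw [qM_fH, det_val]
    · intro h
      exact fH_surj M h
  rw [e]
  exact isClosed_eq (continuous_qM.matrix_det) continuous_const

/-- `det (1 + Y) = 1` for `Y² = 0` -/
theorem det_one_add_sq {n : Type} [Fintype n] [DecidableEq n] {Y : Matrix n n ℂ} (h : Y * Y = 0) : (1 + Y).det = 1 := by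
  have h1 : IsNilpotent (-Y) := ⟨2, by rw [pow_two, neg_mul_neg, h]⟩
  have h2 := Matrix.isNilpotent_charpoly_sub_pow_of_isNilpotent h1
  have h3 : (-Y).charpoly - Polynomial.X ^ Fintype.card n = 0 := h2.eq_zero
  have h4 := Matrix.eval_charpoly (-Y) 1
  rw [sub_eq_zero.1 h3, Polynomial.eval_pow, Polynomial.eval_X, one_pow, sub_neg_eq_add] at h4
  rw [h4]
  congr 1

/-- `SL(m, ℍ)` -/
noncomputable def sgH (m : ℕ) : SG Hq m (SLH m) where
  φ := fH m
  emb := fH_emb
  tv v f h := by
    refine fH_surj _ ?_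
    rw [qM_add, qM_one]
    refine det_one_add_sq ?_
    rw [← qM_mul, vecMulVec_mul_vecMulVec, h, zero_smul]
    have h3 : vecMulVec v (0 : Fin m → Hq) = 0 := by
      refine Matrix.ext fun i j => ?_
      rw [vecMulVec_apply, Pi.zero_apply, mul_zero]
      rfl
    rw [h3, qM_zero]

end H

end Pool.Agent.Helper42.TZ
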