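import Pool.Agent.Helper42.TZ.FamI
import Pool.Agent.Helper96.TZ.DimL
import Pool.Agent.Helper43.TZ.TG

/-!
# Project TZ (MP_0f6f3f_an): the space of lines and the contradiction

`SG.Om Q`: the lines of `K^m`, an `S`-space. `SG.contra`: let `Q : SG K m S` (`2 ≤ m`), `L : Lev S S2 H μ`, and let the dimension of `S2` be less than `dim K · m (m - 1)`. If every family of sets of `Q.Om` gives ping-pong
operators in `L.J`, we have a contradiction.
-/

set_option autoImplicit false
set_option linter.unusedSectionVars false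

open Matrix Topology MeasureTheory

namespace Pool.Agent.Helper42.TZ

open Pool.Agent.Helper43.TZ

variable {K : Type} [NormedDivisionRing K] [NormedAlgebra ℝ K] [FiniteDimensional ℝ K] {m : ℕ}

/-- nonzero vectors -/
abbrev NZ (K : Type) [NormedDivisionRing K] (m : ℕ) : Type := {x : Fin m → K // x ≠ 0}

theorem line_ne {x y : NZ K m} {c : K} (h : x.1 = rs y.1 c) : c ≠ 0 := by
  rintro rfl
  apply x.2
  rw [h, rs_zero]

/-- same line -/
def lineS (K : Type) [NormedDivisionRing K] [NormedAlgebra ℝ K] [FiniteDimensional ℝ K] (m : ℕ) : Setoid (NZ K m) where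
  r x y := ∃ c, x.1 = rs y.1 c
  iseqv := by
    refine ⟨fun x => ⟨1, (rs_one _).symm⟩, ?_, ?_⟩
    · rintro x y ⟨c, hc⟩
      refine ⟨c⁻¹, ?_⟩
      rw [hc, rs_rs, mul_inv_cancel₀ (line_ne hc), rs_one]
    · rintro x y z ⟨c, hc⟩ ⟨d, hd⟩
      refine ⟨d * c, ?_⟩
      rw [hc, hd, rs_rs]

variable {S : Type} [Group S] [TopologicalSpace S] (Q : SG K m S)

theorem SG.mulVec_ne (s : S) {x : Fin m → K} (hx : x ≠ 0) : Q.φ s *ᵥ x ≠ 0 := by
  intro h
  apply hx
  have h1 := congrArg (fun y => Q.φ s⁻¹ *ᵥ y) h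
  simpa only [Matrix.mulVec_mulVec, Q.inv_mul, Matrix.one_mulVec, Matrix.mulVec_zero] using h1

/-- the action on nonzero vectors -/
def SG.act (s : S) (x : NZ K m) : NZ K m := ⟨Q.φ s *ᵥ x.1, Q.mulVec_ne s x.2⟩

theorem SG.continuous_act (s : S) : Continuous (Q.act s) :=
  ((continuous_const (y := Q.φ s)).matrix_mulVec continuous_subtype_val).subtype_mk _

/-- the space of lines of `K^m` -/
def SG.Om (_ : SG K m S) : Type := Quotient (lineS K m)

/-- the line of a vector -/
def SG.ln (x : NZ K m) : Q.Om := Quotient.mk (lineS K m) x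

theorem SG.ln_eq {x y : NZ K m} : Q.ln x = Q.ln y ↔ ∃ c, x.1 = rs y.1 c := Quotient.eq (r := lineS K m)

theorem SG.ln_surj (ω : Q.Om) : ∃ x, Q.ln x = ω := Quotient.exists_rep ω

instance SG.instMulAction : MulAction S Q.Om where
  smul s := Quotient.map (sa := lineS K m) (sb := lineS K m) (Q.act s) fun x y h => by
    obtain ⟨c, hc⟩ := h
    refine ⟨c, ?_⟩
    show Q.φ s *ᵥ x.1 = rs (Q.φ s *ᵥ y.1) c
    rw [hc, mulVec_rs]
  one_smul ω := by
    obtain ⟨x, rfl⟩ := Q.ln_surj ω
    refine congrArg Q.ln (Subtype.ext ?_)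
    show Q.φ 1 *ᵥ x.1 = x.1
    rw [map_one, Matrix.one_mulVec]
  mul_smul s t ω := by
    obtain ⟨x, rfl⟩ := Q.ln_surj ω
    refine congrArg Q.ln (Subtype.ext ?_)
    show Q.φ (s * t) *ᵥ x.1 = Q.φ s *ᵥ (Q.φ t *ᵥ x.1)
    rw [map_mul, Matrix.mulVec_mulVec]

theorem SG.smul_ln (s : S) (x : NZ K m) : s • Q.ln x = Q.ln (Q.act s x) := rfl

instance SG.instMeasurable : MeasurableSpace Q.Om := MeasurableSpace.map Q.ln (borel (NZ K m))

theorem SG.measurableSet {D : Set Q.Om} : MeasurableSet D ↔ @MeasurableSet (NZ K m) (borel _) (Q.ln ⁻¹' D) := Iff.rfl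

/-- maps into the space of lines -/
theorem SG.measurable_ln {X : Type} [MeasurableSpace X] {f : X → NZ K m} (hf : @Measurable _ _ _ (borel (NZ K m)) f) :
    Measurable fun x => Q.ln (f x) := fun _ hD => hf hD

instance SG.instMeasurableConstSMul : MeasurableConstSMul S Q.Om where
  measurable_const_smul s := by
    intro D hD
    borelize (NZ K m)
    exact (Q.continuous_act s).measurable hD

open Classical in
/-- the contradiction -/
theorem SG.contra [IsTopologicalGroup S] (hm : 2 ≤ m) {S2 H : Type} [Group S2] [TopologicalSpace S2] [IsTopologicalGroup S2]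
    [LocallyCompactSpace S2] [SecondCountableTopology S2] [T2Space S2] [MeasurableSpace S2] [BorelSpace S2]
    {μ : Measure S2} [μ.IsHaarMeasure] [μ.IsMulRightInvariant] [NormedAddCommGroup H] [InnerProductSpace ℂ H] [CompleteSpace H]
    (L : Lev S S2 H μ) (z : Siz S2 μ) (hd : z.d < Module.finrank ℝ K * (m * (m - 1)))
    (hPP : ∀ (k c : ℕ) (s : Fin k → S) (D : Fin k → Set Q.Om), (∀ i, MeasurableSet (D i)) →
      (∀ ω, (Finset.univ.filter fun i => ω ∈ D i).card ≤ c) →
      (∀ ω, (Finset.univ.filter fun i => (s i)⁻¹ • ω ∉ D i).card ≤ c) → Nonempty (PP L c k s)) : False := by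
  obtain ⟨F, hF, hv⟩ := Q.fam (by omega : 0 < m)
  obtain ⟨t, ht, htZ⟩ := Pool.Agent.Helper96.TZ.exists_triv_Z L z F (by rw [hF]; exact hd)
  obtain ⟨v, hv⟩ := hv t ht
  -- the subgroup of the elements acting trivially on the centre
  let N : Subgroup S :=
    { carrier := {s | ∀ a ∈ L.Z, cj (L.V s) a = a}
      one_mem' := fun a _ => by
        rw [map_one]
        rfl
      mul_mem' := fun {s s'} hs hs' a ha => by
        have e : cj (L.V (s * s')) a = cj (L.V s) (cj (L.V s') a) := by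
          rw [map_mul]
          rfl
        rw [e, hs' a ha, hs a ha]
      inv_mem' := fun {s} hs a ha => by
        have e : cj (L.V s⁻¹) (cj (L.V s) a) = a := by
          rw [map_inv]
          refine ContinuousLinearMap.ext fun x => ?_
          show (L.V s).symm (L.V s (a ((L.V s).symm ((L.V s) x)))) = a x
          rw [LinearIsometryEquiv.symm_apply_apply, LinearIsometryEquiv.symm_apply_apply]
        rw [hs a ha] at e
        exact e }
  have hZ : ∀ a ∈ L.Z, ∀ s, cj (L.V s) a ∈ L.Z := fun a ha s => ⟨L.RV a ha.1 s, cjV_J' L ha.2 s⟩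
  have hN : N.Normal := by
    refine ⟨fun n hn s a ha => ?_⟩
    have e : cj (L.V (s * n * s⁻¹)) a = cj (L.V s) (cj (L.V n) (cj (L.V s⁻¹) a)) := by
      rw [map_mul, map_mul]
      rfl
    rw [e, hn _ (hZ a ha _)]
    rw [map_inv]
    refine ContinuousLinearMap.ext fun x => ?_
    show L.V s ((L.V s).symm (a (L.V s ((L.V s).symm x)))) = a x
    rw [LinearIsometryEquiv.apply_symm_apply, LinearIsometryEquiv.apply_symm_apply]
  obtain ⟨k, hk⟩ := thmT L z (m - 1)
  obtain ⟨g, D, hg, hD, hinv, h1, h2⟩ := Q.pingpong hm hN (show t ∈ N from htZ) hv k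
  -- the sets of lines
  let D' : Fin k → Set Q.Om := fun i => {ω | ∃ x : NZ K m, Q.ln x = ω ∧ x.1 ∈ D i}
  have hD' : ∀ i (x : NZ K m), Q.ln x ∈ D' i ↔ x.1 ∈ D i := by
    intro i x
    constructor
    · rintro ⟨y, hy, hyD⟩
      obtain ⟨c, hc⟩ := Q.ln_eq.1 hy
      rw [hc] at hyD
      exact (hinv i x.1 c (line_ne hc)).1 hyD
    · intro h
      exact ⟨x, rfl, h⟩
  obtain ⟨pp⟩ := hPP k (m - 1) g D' (fun i => by
      rw [SG.measurableSet]
      borelize (NZ K m)
      have e : Q.ln ⁻¹' (D' i) = Subtype.val ⁻¹' (D i) := by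
        ext x
        exact hD' i x
      rw [e]
      exact ((hD i).preimage continuous_subtype_val).measurableSet)
    (fun ω => by
      obtain ⟨x, rfl⟩ := Q.ln_surj ω
      refine h1 x.1 x.2 _ fun i hi => ?_
      exact (hD' i x).1 (Finset.mem_filter.1 hi).2)
    (fun ω => by
      obtain ⟨x, rfl⟩ := Q.ln_surj ω
      have h3 : (Finset.univ.filter fun i => (g i)⁻¹ • Q.ln x ∉ D' i).card ≤ 1 := by
        rw [Finset.card_le_one]
        intro i hi j hj
        have hi' := (Finset.mem_filter.1 hi).2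
        have hj' := (Finset.mem_filter.1 hj).2
        rw [SG.smul_ln, hD'] at hi' hj'
        exact h2 x.1 x.2 i j hi' hj'
      omega)
  exact hk k le_rfl g (fun i a ha => hg i a ha) pp

end Pool.Agent.Helper42.TZ
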