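import Pool.Agent.Helper42.TZ.Inst
import Pool.Agent.Helper7.TZ.Fam

/-!
# Project TZ (MP_0f6f3f_an): the family of `S`, and the instances
-/

set_option autoImplicit false
set_option linter.unusedSectionVars false

open Matrix Topology

namespace Pool.Agent.Helper42.TZ

open Pool.Agent.Helper43.TZ Pool.Agent.Helper84.SPQ

variable {K : Type} [NormedDivisionRing K] [NormedAlgebra ℝ K] [FiniteDimensional ℝ K] {m : ℕ}

/-- the family, and its shell moves vectors out of their lines -/
theorem SG.fam {S : Type} [Group S] [TopologicalSpace S] [ContinuousInv S] (Q : SG K m S) (hm : 0 < m) :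
    ∃ F : Fam S, F.d1 = Module.finrank ℝ K * (m * (m - 1)) ∧ ∀ t ∈ F.Sg, ∃ v, ∀ c, Q.φ t *ᵥ v ≠ rs v c := by
  obtain ⟨F, hF, h⟩ := Pool.Agent.Helper7.TZ.exists_fam hm Q.φ Q.continuous_elem Q.proper Q.low Q.upp
  refine ⟨F, hF, fun t ht => ?_⟩
  obtain ⟨i, j, hij, hne⟩ := h t ht
  exact Q.not_scalar hij hne

end Pool.Agent.Helper42.TZ
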