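import Pool.Agent.Helper42.TZ.PPg

/-!
# Project TZ (MP_0f6f3f_an): unitriangular matrices and properness for `SG K m S`
-/

set_option autoImplicit false
set_option linter.unusedSectionVars false

open Matrix Topology

namespace Pool.Agent.Helper42.TZ

variable {K : Type} [NormedDivisionRing K] [NormedAlgebra ℝ K] [FiniteDimensional ℝ K] {m : ℕ}

variable {S : Type} [Group S] [TopologicalSpace S] (Q : SG K m S)

/-- unitriangular matrices, for the order given by `r` -/
theorem SG.uni {r : Fin m → ℕ} (hr : Function.Injective r) {X : Matrix (Fin m) (Fin m) K}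
    (hX : ∀ i j, r i ≤ r j → X i j = 0) : ∃ s, Q.φ s = 1 + X := by
  classical
  have key : ∀ n : ℕ, ∃ s, Q.φ s = 1 + Matrix.of fun i j => if r i < n then X i j else 0 := by
    intro n
    induction n with
    | zero =>
      refine ⟨1, ?_⟩
      rw [map_one]
      refine Matrix.ext fun i j => ?_
      rw [Matrix.add_apply, Matrix.of_apply, if_neg (Nat.not_lt_zero _), add_zero]
    | succ n ih =>
      obtain ⟨s, hs⟩ := ih
      by_cases hk : ∃ k, r k = n
      · obtain ⟨k, hk⟩ := hk
        obtain ⟨t, ht⟩ := Q.tv (Pi.single k 1) (X k) (by rw [dotProduct_single_one]; exact hX k k le_rfl)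
        refine ⟨s * t, ?_⟩
        rw [map_mul, hs, ht, Matrix.add_mul, Matrix.one_mul, Matrix.mul_add, Matrix.mul_one, mul_vecMulVec]
        have h1 : (Matrix.of fun i j => if r i < n then X i j else 0) *ᵥ Pi.single k (1 : K) = 0 := by
          funext i
          rw [Matrix.mulVec_single_one]
          show (if r i < n then X i k else 0) = 0
          split_ifs with h
          · exact hX i k (by omega)
          · rfl
        have h2 : vecMulVec (0 : Fin m → K) (X k) = 0 := by
          refine Matrix.ext fun i j => ?_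
          rw [vecMulVec_apply, Pi.zero_apply, zero_mul]
          rfl
        rw [h1, h2, add_zero, add_assoc, add_comm (vecMulVec _ _)]
        congr 1
        refine Matrix.ext fun i j => ?_
        rw [Matrix.add_apply, Matrix.of_apply, Matrix.of_apply, vecMulVec_apply]
        by_cases hik : i = k
        · subst hik
          rw [Pi.single_eq_same, one_mul, if_neg (by omega), if_pos (by omega), zero_add]
        · have hne : r i ≠ n := by
            intro h0
            exact hik (hr (h0.trans hk.symm))
          rw [Pi.single_eq_of_ne hik, zero_mul, add_zero]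
          by_cases h3 : r i < n
          · rw [if_pos h3, if_pos (by omega)]
          · rw [if_neg h3, if_neg (by omega)]
      · refine ⟨s, ?_⟩
        rw [hs]
        congr 1
        refine Matrix.ext fun i j => ?_
        rw [Matrix.of_apply, Matrix.of_apply]
        have hne : r i ≠ n := fun h0 => hk ⟨i, h0⟩
        by_cases h3 : r i < n
        · rw [if_pos h3, if_pos (by omega)]
        · rw [if_neg h3, if_neg (by omega)]
  obtain ⟨s, hs⟩ := key (Finset.univ.sup r + 1)
  refine ⟨s, ?_⟩
  rw [hs]
  congr 1
  refine Matrix.ext fun i j => ?_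
  rw [Matrix.of_apply, if_pos]
  exact Nat.lt_succ_of_le (Finset.le_sup (f := r) (Finset.mem_univ i))

/-- strictly lower triangular matrices -/
theorem SG.low (X : Matrix (Fin m) (Fin m) K) (hX : ∀ i j, i ≤ j → X i j = 0) : ∃ s, Q.φ s = 1 + X :=
  Q.uni (r := fun i => (i : ℕ)) Fin.val_injective fun i j h => hX i j h

/-- strictly upper triangular matrices -/
theorem SG.upp (X : Matrix (Fin m) (Fin m) K) (hX : ∀ i j, j ≤ i → X i j = 0) : ∃ s, Q.φ s = 1 + X := by
  refine Q.uni (r := fun i => m - (i : ℕ)) ?_ fun i j h => hX i j ?_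
  · intro i j h
    have hi := i.2
    have hj := j.2
    apply Fin.ext
    have : m - (i : ℕ) = m - (j : ℕ) := h
    omega
  · have hi := i.2
    have hj := j.2
    have : m - (i : ℕ) ≤ m - (j : ℕ) := h
    rw [Fin.le_def]
    omega

/-- the entries are proper -/
theorem SG.proper [ContinuousInv S] (R : ℝ) : IsCompact {s : S | (∀ i j, ‖Q.φ s i j‖ ≤ R) ∧ ∀ i j, ‖Q.φ s⁻¹ i j‖ ≤ R} := by
  have : ProperSpace K := FiniteDimensional.proper ℝ K
  have h1 : IsCompact {M : Matrix (Fin m) (Fin m) K | ∀ i j, ‖M i j‖ ≤ R} := by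
    have h2 : IsCompact {f : Fin m → Fin m → K | ∀ i, f i ∈ {g : Fin m → K | ∀ j, g j ∈ Metric.closedBall (0 : K) R}} :=
      isCompact_pi_infinite fun _ => isCompact_pi_infinite fun _ => isCompact_closedBall _ _
    have e : {M : Matrix (Fin m) (Fin m) K | ∀ i j, ‖M i j‖ ≤ R} =
        {f : Fin m → Fin m → K | ∀ i, f i ∈ {g : Fin m → K | ∀ j, g j ∈ Metric.closedBall (0 : K) R}} := by
      ext M
      simp only [Set.mem_ofPred_eq, mem_closedBall_zero_iff]
      exact Iff.rfl
    rw [e]
    exact h2
  have h3 := Q.emb.isCompact_preimage h1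
  have h4 : IsClosed {s : S | ∀ i j, ‖Q.φ s⁻¹ i j‖ ≤ R} := by
    have e : {s : S | ∀ i j, ‖Q.φ s⁻¹ i j‖ ≤ R} = ⋂ i, ⋂ j, {s | ‖Q.φ s⁻¹ i j‖ ≤ R} := by
      ext s
      simp
    rw [e]
    refine isClosed_iInter fun i => isClosed_iInter fun j => ?_
    exact isClosed_le (((Q.emb.continuous.comp continuous_inv).matrix_elem i j).norm) continuous_const
  exact h3.inter_right h4

theorem SG.continuous_elem (i j : Fin m) : Continuous fun s => Q.φ s i j := Q.emb.continuous.matrix_elem i j

/-- elements which are not diagonal move a vector out of its line -/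
theorem SG.not_scalar {t : S} {i j : Fin m} (hij : i ≠ j) (h : Q.φ t i j ≠ 0) :
    ∃ v, ∀ c, Q.φ t *ᵥ v ≠ rs v c := by
  classical
  refine ⟨Pi.single j 1, fun c hc => h ?_⟩
  have h1 := congrFun hc i
  rw [Matrix.mulVec_single_one] at h1
  have h2 : (Q.φ t).col j i = 0 := by
    rw [h1]
    have h3 : (Pi.single j 1 : Fin m → K) i = 0 := Pi.single_eq_of_ne hij _
    unfold rs
    rw [h3, zero_mul]
  exact h2

end Pool.Agent.Helper42.TZ
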