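import Pool.Agent.Helper42.TZ.SG

/-!
# Project TZ (MP_0f6f3f_an): ping-pong in the normal closure

`SG.pingpong`: `t` in `S` moves some vector `v` out of the line `v K`. For every `k` there are `g 0, …, g (k - 1)` in every normal subgroup containing `t`, and open sets `D i` of `K^m`, unions of lines, such that every vector `x ≠ 0` is in at
most `m - 1` of the sets `D i`, and in at most one of the sets `g i (K^m ∖ D i)`.

`g i` is the transvection `1 + n (v - w i) φ_i`, `φ_i = ∑ j, i^(e j) F j`, `F` a basis of the dual space with `F i₀ v = 1`, `F j v = 0` for `j ≠ i₀`, `F j₀ = f₀`; `D i = {x : |φ_i x| < ε |x|}`.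
-/

set_option autoImplicit false
set_option linter.unusedSectionVars false

open Matrix Topology

namespace Pool.Agent.Helper42.TZ

variable {K : Type} [NormedDivisionRing K] [NormedAlgebra ℝ K] [FiniteDimensional ℝ K] {m : ℕ}

theorem norm_rs (v : Fin m → K) (c : K) : ‖rs v c‖ = ‖v‖ * ‖c‖ := by
  unfold rs
  refine le_antisymm ?_ ?_
  · refine (pi_norm_le_iff_of_nonneg (by positivity)).2 fun i => ?_
    rw [norm_mul]
    exact mul_le_mul_of_nonneg_right (norm_le_pi_norm v i) (norm_nonneg _)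
  · by_cases hc : c = 0
    · rw [hc, norm_zero, mul_zero]
      positivity
    · have hc' : 0 < ‖c‖ := norm_pos_iff.2 hc
      rw [← le_div_iff₀ hc']
      refine (pi_norm_le_iff_of_nonneg (by positivity)).2 fun i => ?_
      rw [le_div_iff₀ hc', ← norm_mul]
      exact norm_le_pi_norm (fun i => v i * c) i

/-- the adapted dual basis -/
theorem exists_basis {v f0 : Fin m → K} (hv : v ≠ 0) (hf : f0 ≠ 0) (h : f0 ⬝ᵥ v = 0) :
    ∃ (i0 j0 : Fin m) (F : Fin m → (Fin m → K)) (w : Fin m → K), i0 ≠ j0 ∧ F j0 = f0 ∧ F i0 ⬝ᵥ v = 1 ∧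
      (∀ j, j ≠ i0 → F j ⬝ᵥ v = 0) ∧ F j0 ⬝ᵥ w = 1 ∧ (∀ j, j ≠ j0 → F j ⬝ᵥ w = 0) ∧ ∀ x, (∀ j, F j ⬝ᵥ x = 0) → x = 0 := by
  classical
  obtain ⟨i0, hi⟩ : ∃ i, v i ≠ 0 := Function.ne_iff.1 hv
  obtain ⟨j0, hij, hj⟩ : ∃ j, j ≠ i0 ∧ f0 j ≠ 0 := by
    by_contra hcon
    push Not at hcon
    apply hf
    have h1 : f0 ⬝ᵥ v = f0 i0 * v i0 := by
      unfold dotProduct
      rw [Finset.sum_eq_single i0]
      · intro j _ hj
        rw [hcon j hj, zero_mul]
      · intro hh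
        exact absurd (Finset.mem_univ i0) hh
    rw [h] at h1
    have h2 : f0 i0 = 0 := by
      rcases mul_eq_zero.1 h1.symm with h3 | h3
      · exact h3
      · exact absurd h3 hi
    funext j
    by_cases hj : j = i0
    · rw [hj, h2]
      rfl
    · rw [hcon j hj]
      rfl
  obtain ⟨E, hE⟩ : ∃ E : Fin m → (Fin m → K), ∀ j, E j = Pi.single j 1 - (v j * (v i0)⁻¹) • Pi.single i0 1 := ⟨_, fun _ => rfl⟩
  have hEx : ∀ j (x : Fin m → K), E j ⬝ᵥ x = x j - v j * (v i0)⁻¹ * x i0 := by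
    intro j x
    rw [hE, sub_dotProduct, smul_dotProduct, single_one_dotProduct, single_one_dotProduct, smul_eq_mul]
  obtain ⟨F, hF⟩ : ∃ F : Fin m → (Fin m → K), ∀ j, F j = if j = i0 then (v i0)⁻¹ • Pi.single i0 1 else if j = j0 then f0 else E j :=
    ⟨_, fun _ => rfl⟩
  have hFi : F i0 = (v i0)⁻¹ • Pi.single i0 1 := by rw [hF, if_pos rfl]
  have hFj : F j0 = f0 := by rw [hF, if_neg hij, if_pos rfl]
  have hFo : ∀ j, j ≠ i0 → j ≠ j0 → F j = E j := fun j h1 h2 => by rw [hF, if_neg h1, if_neg h2]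
  have hFix : ∀ x : Fin m → K, F i0 ⬝ᵥ x = (v i0)⁻¹ * x i0 := by
    intro x
    rw [hFi, smul_dotProduct, single_one_dotProduct, smul_eq_mul]
  obtain ⟨w, hw⟩ : ∃ w : Fin m → K, w = Pi.single j0 (f0 j0)⁻¹ := ⟨_, rfl⟩
  have hwj : w j0 = (f0 j0)⁻¹ := by rw [hw, Pi.single_eq_same]
  have hwo : ∀ j, j ≠ j0 → w j = 0 := fun j hj => by rw [hw, Pi.single_eq_of_ne hj]
  have hf0w : f0 ⬝ᵥ w = 1 := by
    rw [hw, dotProduct_single, mul_inv_cancel₀ hj]
  refine ⟨i0, j0, F, w, hij.symm, hFj, ?_, ?_, ?_, ?_, ?_⟩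
  · rw [hFix, inv_mul_cancel₀ hi]
  · intro j hj'
    by_cases hjj : j = j0
    · rw [hjj, hFj, h]
    · rw [hFo j hj' hjj, hEx, mul_assoc, inv_mul_cancel₀ hi, mul_one, sub_self]
  · rw [hFj, hf0w]
  · intro j hj'
    by_cases hji : j = i0
    · rw [hji, hFix, hwo i0 hij.symm, mul_zero]
    · rw [hFo j hji hj', hEx, hwo j hj', hwo i0 hij.symm, mul_zero, sub_zero]
  · intro x hx
    have h1 : x i0 = 0 := by
      have h2 := hx i0
      rw [hFix] at h2
      rcases mul_eq_zero.1 h2 with h3 | h3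
      · exact absurd h3 (inv_ne_zero hi)
      · exact h3
    have h2 : ∀ j, j ≠ j0 → x j = 0 := by
      intro j hj'
      by_cases hji : j = i0
      · rw [hji, h1]
      · have h3 := hx j
        rw [hFo j hji hj', hEx, h1, mul_zero, sub_zero] at h3
        exact h3
    have h3 : x j0 = 0 := by
      have h4 := hx j0
      rw [hFj] at h4
      have h5 : f0 ⬝ᵥ x = f0 j0 * x j0 := by
        unfold dotProduct
        rw [Finset.sum_eq_single j0]
        · intro j _ hj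
          rw [h2 j hj, mul_zero]
        · intro hh
          exact absurd (Finset.mem_univ j0) hh
      rw [h5] at h4
      rcases mul_eq_zero.1 h4 with h6 | h6
      · exact absurd h6 hj
      · exact h6
    funext j
    by_cases hj' : j = j0
    · rw [hj', h3]
      rfl
    · rw [h2 j hj']
      rfl

/-- the functionals -/
def vf (F : Fin m → (Fin m → K)) (e : Fin m → ℕ) (x : ℕ) : Fin m → K := ∑ j, (x ^ e j) • F j

theorem vf_dot (F : Fin m → (Fin m → K)) (e : Fin m → ℕ) (x : ℕ) (y : Fin m → K) :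
    vf F e x ⬝ᵥ y = ∑ j, (x ^ e j) • (F j ⬝ᵥ y) := by
  unfold vf
  rw [sum_dotProduct]
  exact Finset.sum_congr rfl fun j _ => smul_dotProduct _ _ _

/-- general position -/
theorem vander {F : Fin m → (Fin m → K)} (hF : ∀ x, (∀ j, F j ⬝ᵥ x = 0) → x = 0) (e : Fin m ≃ Fin m)
    {σ : Fin m → ℕ} (hσ : Function.Injective σ) :
    ∃ c : ℝ, 0 < c ∧ ∀ y : Fin m → K, c * ‖y‖ ≤ ‖fun a => vf F (fun j => (e j : ℕ)) (σ a) ⬝ᵥ y‖ := by
  obtain ⟨L, hL⟩ : ∃ L : (Fin m → K) →ₗ[ℝ] (Fin m → K), ∀ y a, L y a = vf F (fun j => (e j : ℕ)) (σ a) ⬝ᵥ y :=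
    ⟨{ toFun := fun y a => vf F (fun j => (e j : ℕ)) (σ a) ⬝ᵥ y
       map_add' := fun x y => by
         funext a
         exact dotProduct_add _ _ _
       map_smul' := fun c x => by
         funext a
         exact dotProduct_smul _ _ _ }, fun _ _ => rfl⟩
  have hinj : Function.Injective L := by
    rw [← LinearMap.ker_eq_bot, LinearMap.ker_eq_bot']
    intro y hy
    apply hF
    have h1 : ∀ a, ∑ j, (((σ a : ℝ)) ^ (e j : ℕ)) • (F j ⬝ᵥ y) = 0 := by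
      intro a
      have h2 := congrFun hy a
      rw [hL, vf_dot] at h2
      refine Eq.trans ?_ h2
      refine Finset.sum_congr rfl fun j _ => ?_
      rw [← Nat.cast_pow, Nat.cast_smul_eq_nsmul]
    obtain ⟨z, hz⟩ : ∃ z : Fin m → K, ∀ b, z b = F (e.symm b) ⬝ᵥ y := ⟨_, fun _ => rfl⟩
    have h2 : ∀ a, ∑ b : Fin m, (vandermonde (fun a => (σ a : ℝ)) a b) • z b = 0 := by
      intro a
      rw [← h1 a, ← e.sum_comp]
      refine Finset.sum_congr rfl fun j _ => ?_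
      rw [hz, Equiv.symm_apply_apply, vandermonde_apply]
    have hdet : (vandermonde (fun a => (σ a : ℝ))).det ≠ 0 := by
      rw [det_vandermonde_ne_zero_iff]
      intro a b hab
      have hab' : (σ a : ℝ) = (σ b : ℝ) := hab
      exact hσ (by exact_mod_cast hab')
    have h3 : ∀ c, z c = 0 := by
      intro c
      have h4 : (vandermonde (fun a => (σ a : ℝ)))⁻¹ * vandermonde (fun a => (σ a : ℝ)) = 1 :=
        Matrix.nonsing_inv_mul _ (isUnit_iff_ne_zero.2 hdet)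
      have h5 : ∑ a, (vandermonde (fun a => (σ a : ℝ)))⁻¹ c a • ∑ b : Fin m, (vandermonde (fun a => (σ a : ℝ)) a b) • z b = z c := by
        have h6 : ∑ a, (vandermonde (fun a => (σ a : ℝ)))⁻¹ c a • ∑ b : Fin m, (vandermonde (fun a => (σ a : ℝ)) a b) • z b =
            ∑ b, (((vandermonde (fun a => (σ a : ℝ)))⁻¹ * vandermonde (fun a => (σ a : ℝ))) c b) • z b := by
          simp only [Finset.smul_sum, smul_smul, Matrix.mul_apply, Finset.sum_smul]
          exact Finset.sum_comm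
        rw [h6, h4, Finset.sum_eq_single c]
        · rw [Matrix.one_apply_eq, one_smul]
        · intro b _ hb
          rw [Matrix.one_apply_ne hb.symm, zero_smul]
        · intro hh
          exact absurd (Finset.mem_univ c) hh
      rw [← h5]
      refine Finset.sum_eq_zero fun a _ => ?_
      rw [h2, smul_zero]
    intro j
    have h4 := h3 (e j)
    rwa [hz, Equiv.symm_apply_apply] at h4
  obtain ⟨C, hC, hCL⟩ := L.injective_iff_antilipschitz.1 hinj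
  refine ⟨(C : ℝ)⁻¹, by positivity, fun y => ?_⟩
  have h1 := hCL.le_mul_dist y 0
  rw [dist_zero_right, map_zero, dist_zero_right] at h1
  have h2 : (fun a => vf F (fun j => (e j : ℕ)) (σ a) ⬝ᵥ y) = L y := by
    funext a
    rw [hL]
  rw [h2, inv_mul_le_iff₀ (by exact_mod_cast hC)]
  exact h1

theorem exists_perm (hm : 2 ≤ m) {i0 j0 : Fin m} (h : i0 ≠ j0) : ∃ e : Fin m ≃ Fin m, (e i0 : ℕ) = 1 ∧ (e j0 : ℕ) = 0 := by
  obtain ⟨z, hz⟩ : ∃ z : Fin m, z = ⟨0, by omega⟩ := ⟨_, rfl⟩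
  obtain ⟨o, ho⟩ : ∃ o : Fin m, o = ⟨1, by omega⟩ := ⟨_, rfl⟩
  have hzo : z ≠ o := by
    rw [hz, ho]
    intro hh
    have := congrArg Fin.val hh
    simp at this
  have h1 : (Equiv.swap j0 z) i0 ≠ z := by
    intro hh
    have h2 : (Equiv.swap j0 z) j0 = z := Equiv.swap_apply_left _ _
    exact h ((Equiv.swap j0 z).injective (hh.trans h2.symm))
  refine ⟨(Equiv.swap j0 z).trans (Equiv.swap ((Equiv.swap j0 z) i0) o), ?_, ?_⟩
  · rw [Equiv.trans_apply, Equiv.swap_apply_left, ho]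
  · rw [Equiv.trans_apply, Equiv.swap_apply_left, Equiv.swap_apply_of_ne_of_ne h1.symm hzo, hz]

theorem exists_pos_le {α : Type} [Finite α] {f : α → ℝ} (hf : ∀ a, 0 < f a) : ∃ ε : ℝ, 0 < ε ∧ ∀ a, ε ≤ f a := by
  rcases isEmpty_or_nonempty α with h | h
  · exact ⟨1, one_pos, fun a => h.elim a⟩
  · obtain ⟨a, ha⟩ := Finite.exists_min f
    exact ⟨f a, hf a, ha⟩

theorem dot_le (f z : Fin m → K) : ‖f ⬝ᵥ z‖ ≤ (∑ j, ‖f j‖) * ‖z‖ := by
  unfold dotProduct
  rw [Finset.sum_mul]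
  refine (norm_sum_le _ _).trans (Finset.sum_le_sum fun j _ => ?_)
  rw [norm_mul]
  exact mul_le_mul_of_nonneg_left (norm_le_pi_norm z j) (norm_nonneg _)

variable {S : Type} [Group S] [TopologicalSpace S] (Q : SG K m S)

theorem SG.In.sum {N : Subgroup S} {v : Fin m → K} {ι : Type} (s : Finset ι) {f : ι → (Fin m → K)}
    (hf : ∀ i ∈ s, f i ⬝ᵥ v = 0) (h : ∀ i ∈ s, Q.In N v (f i)) : Q.In N v (∑ i ∈ s, f i) ∧ (∑ i ∈ s, f i) ⬝ᵥ v = 0 := by
  classical
  induction s using Finset.induction_on with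
  | empty =>
    rw [Finset.sum_empty]
    exact ⟨SG.In.zero Q N v, zero_dotProduct _⟩
  | insert a s ha ih =>
    rw [Finset.sum_insert ha]
    obtain ⟨h1, h2⟩ := ih (fun i hi => hf i (Finset.mem_insert_of_mem hi)) (fun i hi => h i (Finset.mem_insert_of_mem hi))
    have h3 := hf a (Finset.mem_insert_self a s)
    refine ⟨SG.In.add Q h3 (h a (Finset.mem_insert_self a s)) h1, ?_⟩
    rw [add_dotProduct, h2, h3, add_zero]

/-- Ping-pong in a normal subgroup. -/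
theorem SG.pingpong (hm : 2 ≤ m) {N : Subgroup S} (hN : N.Normal) {t : S} (ht : t ∈ N) {v : Fin m → K}
    (hv : ∀ c, Q.φ t *ᵥ v ≠ rs v c) (k : ℕ) :
    ∃ (g : Fin k → S) (D : Fin k → Set (Fin m → K)), (∀ i, g i ∈ N) ∧ (∀ i, IsOpen (D i)) ∧
      (∀ i x c, c ≠ 0 → (rs x c ∈ D i ↔ x ∈ D i)) ∧
      (∀ x, x ≠ 0 → ∀ s : Finset (Fin k), (∀ i ∈ s, x ∈ D i) → s.card ≤ m - 1) ∧
      (∀ x, x ≠ 0 → ∀ i j, Q.φ (g i)⁻¹ *ᵥ x ∉ D i → Q.φ (g j)⁻¹ *ᵥ x ∉ D j → i = j) := by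
  classical
  obtain ⟨f0, hv0, hf0, hfv, hIn⟩ := Q.exists_tv hN ht hv
  obtain ⟨i0, j0, F, w, hij, hFj, h1, h2, h3, h4, hF⟩ := exists_basis hv0 hf0 hfv
  obtain ⟨e, he1, he0⟩ := exists_perm hm hij
  -- the transvections `T(v, F j)`
  have hInj : ∀ j, j ≠ i0 → Q.In N v (F j) := by
    intro j hj
    by_cases hjj : j = j0
    · rw [hjj, hFj]
      exact hIn
    · have h5 := SG.In.comm Q hN hfv (h4 j hjj) (h2 j hj) hIn
      rw [← hFj, h3, one_smul] at h5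
      exact h5
  have hsplit : ∀ x : ℕ, vf F (fun j => (e j : ℕ)) x = (∑ j ∈ Finset.univ.erase i0, (x ^ (e j : ℕ)) • F j) + x • F i0 := by
    intro x
    unfold vf
    rw [← Finset.sum_erase_add _ _ (Finset.mem_univ i0)]
    show _ + x ^ (e i0 : ℕ) • F i0 = _
    rw [he1, pow_one]
  have hψ : ∀ x : ℕ, Q.In N v (∑ j ∈ Finset.univ.erase i0, (x ^ (e j : ℕ)) • F j) ∧
      (∑ j ∈ Finset.univ.erase i0, (x ^ (e j : ℕ)) • F j) ⬝ᵥ v = 0 := by
    intro x
    refine SG.In.sum Q _ (fun j hj => ?_) (fun j hj => ?_)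
    · rw [smul_dotProduct, h2 j (Finset.ne_of_mem_erase hj), smul_zero]
    · exact SG.In.nsmul Q (h2 j (Finset.ne_of_mem_erase hj)) (hInj j (Finset.ne_of_mem_erase hj)) _
  have hψw : ∀ x : ℕ, (∑ j ∈ Finset.univ.erase i0, (x ^ (e j : ℕ)) • F j) ⬝ᵥ w = 1 := by
    intro x
    rw [sum_dotProduct, Finset.sum_eq_single j0]
    · rw [smul_dotProduct, h3, he0, pow_zero, one_smul]
    · intro j _ hj
      rw [smul_dotProduct, h4 j hj, smul_zero]
    · intro hh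
      exact absurd (Finset.mem_erase.2 ⟨hij.symm, Finset.mem_univ j0⟩) hh
  have htv : ∀ n x : ℕ, Q.In N (v + rs w (-(x : K))) (n • vf F (fun j => (e j : ℕ)) x) := by
    intro n x
    obtain ⟨A, hA⟩ := Q.tv w (-((x : K) • F i0)) (by rw [neg_dotProduct, smul_dotProduct, h4 i0 hij, smul_zero, neg_zero])
    have h5 := SG.In.conj Q hN (SG.In.nsmul Q (hψ x).2 (hψ x).1 n) A
    have e1 : Q.φ A *ᵥ v = v + rs w (-(x : K)) := by
      rw [hA, tv_mulVec, neg_dotProduct, smul_dotProduct, h1, smul_eq_mul, mul_one]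
    have e2 : (n • ∑ j ∈ Finset.univ.erase i0, (x ^ (e j : ℕ)) • F j) ᵥ* Q.φ A⁻¹ = n • vf F (fun j => (e j : ℕ)) x := by
      rw [Q.inv_tv (by rw [neg_dotProduct, smul_dotProduct, h4 i0 hij, smul_zero, neg_zero]) hA, sub_eq_add_neg, ← vecMulVec_neg,
        neg_neg, vecMul_tv, smul_dotProduct, hψw, hsplit, smul_add]
      congr 1
      rw [nsmul_eq_mul, mul_one, smul_smul, ← Nat.cast_mul, Nat.cast_smul_eq_nsmul, mul_smul]
    rw [e1, e2] at h5
    exact h5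
  -- the radius
  obtain ⟨ε, hε, hεσ⟩ : ∃ ε : ℝ, 0 < ε ∧ ∀ σ : Fin m → Fin k, Function.Injective σ → ∀ y : Fin m → K,
      ε * ‖y‖ ≤ ‖fun a => vf F (fun j => (e j : ℕ)) (σ a : ℕ) ⬝ᵥ y‖ := by
    have h5 : ∀ σ : {σ : Fin m → Fin k // Function.Injective σ}, ∃ c : ℝ, 0 < c ∧ ∀ y : Fin m → K,
        c * ‖y‖ ≤ ‖fun a => vf F (fun j => (e j : ℕ)) (σ.1 a : ℕ) ⬝ᵥ y‖ := fun σ =>
      vander hF e (σ := fun a => (σ.1 a : ℕ)) fun a b hab => σ.2 (Fin.ext hab)
    choose c hc hcy using h5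
    obtain ⟨ε, hε, hle⟩ := exists_pos_le hc
    exact ⟨ε, hε, fun σ hσ y => (mul_le_mul_of_nonneg_right (hle ⟨σ, hσ⟩) (norm_nonneg _)).trans (hcy ⟨σ, hσ⟩ y)⟩
  obtain ⟨B, hB⟩ : ∃ B : ℝ, B = (∑ j, ‖F i0 j‖) + ∑ j, ‖F j0 j‖ := ⟨_, rfl⟩
  have hB0 : 0 ≤ B := by
    rw [hB]
    positivity
  obtain ⟨n, hn⟩ := exists_nat_gt ((2 * (k + 1) * B + 1) / ε)
  have hn' : 2 * (k + 1) * B + 1 < n * ε := (div_lt_iff₀ hε).1 hn
  have hn0 : (0 : ℝ) < n * ε := by
    have : (0 : ℝ) ≤ 2 * (k + 1) * B := by positivity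
    linarith
  choose g hgN hg using fun i : Fin k => htv n i
  refine ⟨g, fun i => {y | ‖vf F (fun j => (e j : ℕ)) (i : ℕ) ⬝ᵥ y‖ < ε * ‖y‖}, hgN, ?_, ?_, ?_, ?_⟩
  · intro i
    refine isOpen_lt ?_ (continuous_const.mul continuous_norm)
    exact (continuous_const.dotProduct continuous_id).norm
  · intro i x c hc
    have hc' : 0 < ‖c‖ := norm_pos_iff.2 hc
    show ‖vf F (fun j => (e j : ℕ)) (i : ℕ) ⬝ᵥ rs x c‖ < ε * ‖rs x c‖ ↔ ‖vf F (fun j => (e j : ℕ)) (i : ℕ) ⬝ᵥ x‖ < ε * ‖x‖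
    rw [dot_rs, norm_rs, norm_mul, ← mul_assoc]
    exact mul_lt_mul_iff_left₀ hc'
  · intro x hx s hs
    by_contra hcon
    have h5 : m ≤ s.card := by omega
    obtain ⟨s', hs', hcard⟩ := Finset.exists_subset_card_eq h5
    have hx' : 0 < ‖x‖ := norm_pos_iff.2 hx
    have h6 := hεσ (fun a => s'.orderEmbOfFin hcard a) (s'.orderEmbOfFin hcard).injective x
    have h7 : ‖fun a => vf F (fun j => (e j : ℕ)) (s'.orderEmbOfFin hcard a : ℕ) ⬝ᵥ x‖ < ε * ‖x‖ := by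
      rw [pi_norm_lt_iff (by positivity)]
      intro a
      exact hs _ (hs' (Finset.orderEmbOfFin_mem s' hcard a))
    linarith
  · intro x hx i j hi hj
    by_contra hne
    obtain ⟨y, hy⟩ : ∃ y : Fin k → (Fin m → K), ∀ a, y a = Q.φ (g a)⁻¹ *ᵥ x := ⟨_, fun _ => rfl⟩
    obtain ⟨c, hc⟩ : ∃ c : Fin k → K, ∀ a, c a = (n • vf F (fun j => (e j : ℕ)) (a : ℕ)) ⬝ᵥ y a := ⟨_, fun _ => rfl⟩
    have hxy : ∀ a, x = y a + rs (v + rs w (-((a : ℕ) : K))) (c a) := by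
      intro a
      rw [hc, ← tv_mulVec, ← hg a, hy, Matrix.mulVec_mulVec, Q.mul_inv, Matrix.one_mulVec]
    have hyc : ∀ a : Fin k, y a ∉ {y | ‖vf F (fun j => (e j : ℕ)) (a : ℕ) ⬝ᵥ y‖ < ε * ‖y‖} → n * ε * ‖y a‖ ≤ ‖c a‖ := by
      intro a ha
      have ha' : ε * ‖y a‖ ≤ ‖vf F (fun j => (e j : ℕ)) (a : ℕ) ⬝ᵥ y a‖ := not_lt.1 ha
      rw [hc, smul_dotProduct, nsmul_eq_mul, norm_mul]
      have h5 : ‖(n : K)‖ = n := by
        have e1 : (n : K) = algebraMap ℝ K n := (map_natCast (algebraMap ℝ K) n).symm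
        rw [e1, norm_algebraMap', Real.norm_of_nonneg (Nat.cast_nonneg n)]
      rw [h5, mul_assoc]
      exact mul_le_mul_of_nonneg_left ha' (Nat.cast_nonneg n)
    have hci := hyc i (by rw [hy]; exact hi)
    have hcj := hyc j (by rw [hy]; exact hj)
    obtain ⟨z, hz⟩ : ∃ z, z = y j - y i := ⟨_, rfl⟩
    have hz' : z = rs (v + rs w (-((i : ℕ) : K))) (c i) - rs (v + rs w (-((j : ℕ) : K))) (c j) := by
      rw [hz]
      have h5 := hxy i
      have h6 := hxy j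
      have h7 : y i + rs (v + rs w (-((i : ℕ) : K))) (c i) = y j + rs (v + rs w (-((j : ℕ) : K))) (c j) := by
        rw [← h5, ← h6]
      rw [sub_eq_sub_iff_add_eq_add, add_comm (rs _ _), h7, add_comm]
    have hFi : F i0 ⬝ᵥ z = c i - c j := by
      rw [hz', dotProduct_sub, dot_rs, dot_rs, dotProduct_add, dotProduct_add, dot_rs, dot_rs, h1, h4 i0 hij]
      simp
    have hFj' : F j0 ⬝ᵥ z = -(((i : ℕ) : K) * c i) + ((j : ℕ) : K) * c j := by
      rw [hz', dotProduct_sub, dot_rs, dot_rs, dotProduct_add, dotProduct_add, dot_rs, dot_rs, h3, h2 j0 hij.symm]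
      simp
    have hzi : ‖F i0 ⬝ᵥ z‖ ≤ B * ‖z‖ := by
      refine (dot_le _ _).trans (mul_le_mul_of_nonneg_right ?_ (norm_nonneg _))
      rw [hB]
      have : 0 ≤ ∑ j, ‖F j0 j‖ := by positivity
      linarith
    have hzj : ‖F j0 ⬝ᵥ z‖ ≤ B * ‖z‖ := by
      refine (dot_le _ _).trans (mul_le_mul_of_nonneg_right ?_ (norm_nonneg _))
      rw [hB]
      have : 0 ≤ ∑ j, ‖F i0 j‖ := by positivity
      linarith
    have hnat : ∀ a : Fin k, ‖((a : ℕ) : K)‖ ≤ k := by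
      intro a
      have e1 : ((a : ℕ) : K) = algebraMap ℝ K (a : ℕ) := (map_natCast (algebraMap ℝ K) a).symm
      rw [e1, norm_algebraMap', Real.norm_of_nonneg (Nat.cast_nonneg _)]
      exact_mod_cast a.2.le
    have hdiff : 1 ≤ ‖((j : ℕ) : K) - ((i : ℕ) : K)‖ := by
      have e1 : ((j : ℕ) : K) - ((i : ℕ) : K) = algebraMap ℝ K (((j : ℕ) : ℝ) - ((i : ℕ) : ℝ)) := by
        rw [map_sub, map_natCast, map_natCast]
      rw [e1, norm_algebraMap', Real.norm_eq_abs]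
      have e2 : (1 : ℤ) ≤ |((j : ℕ) : ℤ) - ((i : ℕ) : ℤ)| := by
        refine Int.one_le_abs ?_
        intro h0
        apply hne
        apply Fin.ext
        omega
      exact_mod_cast e2
    have hcomm : ∀ (a : ℕ) (b : K), (a : K) * b = b * a := fun a b => (Nat.cast_commute a b).eq
    have hb1 : ‖c j‖ ≤ (k + 1) * B * ‖z‖ := by
      -- `(j - i) c j = i F i0 z + F j0 z`
      have h5 : (((j : ℕ) : K) - ((i : ℕ) : K)) * c j = ((i : ℕ) : K) * (F i0 ⬝ᵥ z) + F j0 ⬝ᵥ z := by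
        rw [hFi, hFj', sub_mul, mul_sub]
        abel
      have h6 : ‖c j‖ ≤ ‖(((j : ℕ) : K) - ((i : ℕ) : K)) * c j‖ := by
        rw [norm_mul]
        nlinarith [norm_nonneg (c j)]
      refine h6.trans ?_
      rw [h5]
      refine (norm_add_le _ _).trans ?_
      rw [norm_mul]
      have h7 : ‖((i : ℕ) : K)‖ * ‖F i0 ⬝ᵥ z‖ ≤ k * (B * ‖z‖) := mul_le_mul (hnat i) hzi (norm_nonneg _) (Nat.cast_nonneg k)
      linarith
    have hb2 : ‖c i‖ ≤ (k + 1) * B * ‖z‖ := by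
      have h5 : (((j : ℕ) : K) - ((i : ℕ) : K)) * c i = ((j : ℕ) : K) * (F i0 ⬝ᵥ z) + F j0 ⬝ᵥ z := by
        rw [hFi, hFj', sub_mul, mul_sub]
        abel
      have h6 : ‖c i‖ ≤ ‖(((j : ℕ) : K) - ((i : ℕ) : K)) * c i‖ := by
        rw [norm_mul]
        nlinarith [norm_nonneg (c i)]
      refine h6.trans ?_
      rw [h5]
      refine (norm_add_le _ _).trans ?_
      rw [norm_mul]
      have h7 : ‖((j : ℕ) : K)‖ * ‖F i0 ⬝ᵥ z‖ ≤ k * (B * ‖z‖) := mul_le_mul (hnat j) hzi (norm_nonneg _) (Nat.cast_nonneg k)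
      linarith
    have hzz : ‖z‖ ≤ ‖y j‖ + ‖y i‖ := by
      rw [hz]
      exact norm_sub_le _ _
    have hz0 : ‖z‖ = 0 := by
      have h5 : n * ε * ‖z‖ ≤ 2 * (k + 1) * B * ‖z‖ := by
        calc n * ε * ‖z‖ ≤ n * ε * (‖y j‖ + ‖y i‖) := mul_le_mul_of_nonneg_left hzz hn0.le
          _ = n * ε * ‖y j‖ + n * ε * ‖y i‖ := by ring
          _ ≤ ‖c j‖ + ‖c i‖ := add_le_add hcj hci
          _ ≤ (k + 1) * B * ‖z‖ + (k + 1) * B * ‖z‖ := add_le_add hb1 hb2
          _ = 2 * (k + 1) * B * ‖z‖ := by ring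
      by_contra h0
      have h6 : 0 < ‖z‖ := lt_of_le_of_ne (norm_nonneg _) (Ne.symm h0)
      have h7 : 2 * (k + 1) * B * ‖z‖ + ‖z‖ ≤ n * ε * ‖z‖ := by nlinarith
      linarith
    have hc0 : ‖c i‖ = 0 := by
      rw [hz0, mul_zero] at hb2
      exact le_antisymm hb2 (norm_nonneg _)
    have hy0 : ‖y i‖ = 0 := by
      rw [hc0] at hci
      by_contra h0
      have h6 : 0 < ‖y i‖ := lt_of_le_of_ne (norm_nonneg _) (Ne.symm h0)
      have := mul_pos hn0 h6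
      linarith
    apply hx
    rw [hxy i, norm_eq_zero.1 hc0, norm_eq_zero.1 hy0, rs_zero, add_zero]

end Pool.Agent.Helper42.TZ
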