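import Mathlib

/-!
# Project TZ (MP_0f6f3f_an), the groups on the source side

`SG K m S`: the topological group `S` is a closed group of `m × m` matrices over the division ring `K` (`ℝ`, `ℂ`, `ℍ`) which contains all transvections.
`exists_tv`: the normal closure of an element which is not scalar contains a transvection.
-/

set_option autoImplicit false
set_option linter.unusedSectionVars false

open Matrix Topology

namespace Pool.Agent.Helper42.TZ

variable {K : Type} [NormedDivisionRing K] [NormedAlgebra ℝ K] [FiniteDimensional ℝ K] {m : ℕ}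

/-- right multiplication of a vector by a scalar -/
def rs (v : Fin m → K) (c : K) : Fin m → K := fun i => v i * c

/-- closed groups of matrices which contain all transvections -/
structure SG (K : Type) [NormedDivisionRing K] [NormedAlgebra ℝ K] (m : ℕ) (S : Type) [Group S] [TopologicalSpace S] where
  /-- the matrix -/
  φ : S →* Matrix (Fin m) (Fin m) K
  emb : IsClosedEmbedding φ
  tv : ∀ v f : Fin m → K, f ⬝ᵥ v = 0 → ∃ g, φ g = 1 + vecMulVec v f

theorem nrm (n : ℕ) [n.AtLeastTwo] : ‖(OfNat.ofNat n : K)‖ = (OfNat.ofNat n : ℝ) := by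
  have e : (OfNat.ofNat n : K) = algebraMap ℝ K (OfNat.ofNat n) := (map_ofNat (algebraMap ℝ K) n).symm
  rw [e, norm_algebraMap', Real.norm_of_nonneg (Nat.ofNat_nonneg n)]

theorem rs_one (v : Fin m → K) : rs v 1 = v := by
  unfold rs
  simp

theorem rs_zero (v : Fin m → K) : rs v 0 = 0 := by
  unfold rs
  simp
  rfl

theorem rs_rs (v : Fin m → K) (c d : K) : rs (rs v c) d = rs v (c * d) := by
  unfold rs
  simp only [mul_assoc]

theorem rs_add (v : Fin m → K) (c d : K) : rs v (c + d) = rs v c + rs v d := by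
  unfold rs
  funext i
  simp only [mul_add, Pi.add_apply]

theorem add_rs (v w : Fin m → K) (c : K) : rs (v + w) c = rs v c + rs w c := by
  unfold rs
  funext i
  simp only [add_mul, Pi.add_apply]

theorem dot_rs (f v : Fin m → K) (c : K) : f ⬝ᵥ rs v c = (f ⬝ᵥ v) * c := by
  unfold rs dotProduct
  rw [Finset.sum_mul]
  exact Finset.sum_congr rfl fun i _ => (mul_assoc _ _ _).symm

theorem mulVec_rs (M : Matrix (Fin m) (Fin m) K) (v : Fin m → K) (c : K) : M *ᵥ rs v c = rs (M *ᵥ v) c := by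
  funext i
  exact dot_rs _ v c

theorem vmv_rs (v f : Fin m → K) (c : K) : vecMulVec (rs v c) f = vecMulVec v (c • f) := by
  refine Matrix.ext fun i j => ?_
  rw [vecMulVec_apply, vecMulVec_apply, Pi.smul_apply, smul_eq_mul, ← mul_assoc]
  rfl

theorem vmv_mulVec (v f x : Fin m → K) : vecMulVec v f *ᵥ x = rs v (f ⬝ᵥ x) := by
  funext i
  unfold rs mulVec dotProduct
  rw [Finset.mul_sum]
  refine Finset.sum_congr rfl fun j _ => ?_
  show vecMulVec v f i j * x j = v i * (f j * x j)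
  rw [vecMulVec_apply, mul_assoc]

theorem tv_mulVec (v f x : Fin m → K) : (1 + vecMulVec v f) *ᵥ x = x + rs v (f ⬝ᵥ x) := by
  rw [Matrix.add_mulVec, Matrix.one_mulVec, vmv_mulVec]

theorem vecMul_tv (v f g : Fin m → K) : g ᵥ* (1 + vecMulVec v f) = g + (g ⬝ᵥ v) • f := by
  rw [Matrix.vecMul_add, Matrix.vecMul_one]
  congr 1
  funext j
  unfold vecMul dotProduct
  rw [Pi.smul_apply, smul_eq_mul, Finset.sum_mul]
  refine Finset.sum_congr rfl fun i _ => ?_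
  show g i * vecMulVec v f i j = g i * v i * f j
  rw [vecMulVec_apply, mul_assoc]

theorem tv_mul {v f g : Fin m → K} (h : f ⬝ᵥ v = 0) : (1 + vecMulVec v f) * (1 + vecMulVec v g) = 1 + vecMulVec v (f + g) := by
  rw [Matrix.add_mul, Matrix.one_mul, Matrix.mul_add, Matrix.mul_one, vecMulVec_mul_vecMulVec, h, zero_smul, vecMulVec_add]
  have : vecMulVec v (0 : Fin m → K) = 0 := by
    refine Matrix.ext fun i j => ?_
    rw [vecMulVec_apply, Pi.zero_apply, mul_zero]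
    rfl
  rw [this]
  abel

theorem comm_id {R : Type} [Ring R] {X Y : R} (hX : X * X = 0) (hY : Y * Y = 0) (hYX : Y * X = 0) :
    (1 + X) * (1 + Y) * (1 - X) * (1 - Y) = 1 + X * Y := by
  simp only [mul_add, add_mul, mul_sub, sub_mul, one_mul, mul_one, mul_assoc, hX, hY, hYX, mul_zero, zero_mul]
  abel

/-- dual functionals -/
theorem exists_dual {v w : Fin m → K} (hv : v ≠ 0) (hw : ∀ c, w ≠ rs v c) :
    ∃ f g : Fin m → K, f ⬝ᵥ v = 1 ∧ f ⬝ᵥ w = 0 ∧ g ⬝ᵥ v = 0 ∧ g ⬝ᵥ w = 1 := by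
  obtain ⟨i, hi⟩ : ∃ i, v i ≠ 0 := Function.ne_iff.1 hv
  obtain ⟨j, hj⟩ : ∃ j, w j ≠ rs v ((v i)⁻¹ * w i) j := Function.ne_iff.1 (hw _)
  have hj' : w j - v j * ((v i)⁻¹ * w i) ≠ 0 := sub_ne_zero.2 hj
  obtain ⟨d, hd⟩ : ∃ d : K, d = (w j - v j * ((v i)⁻¹ * w i))⁻¹ := ⟨_, rfl⟩
  obtain ⟨g, hg⟩ : ∃ g : Fin m → K, g = d • (Pi.single j 1 - (v j * (v i)⁻¹) • Pi.single i 1) := ⟨_, rfl⟩
  have hgx : ∀ x : Fin m → K, g ⬝ᵥ x = d * (x j - v j * (v i)⁻¹ * x i) := by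
    intro x
    rw [hg, smul_dotProduct, sub_dotProduct, smul_dotProduct, single_one_dotProduct, single_one_dotProduct, smul_eq_mul,
      smul_eq_mul]
  have hgv : g ⬝ᵥ v = 0 := by
    rw [hgx, mul_assoc (v j), inv_mul_cancel₀ hi, mul_one, sub_self, mul_zero]
  have hgw : g ⬝ᵥ w = 1 := by
    rw [hgx, mul_assoc (v j), hd, inv_mul_cancel₀ hj']
  refine ⟨(v i)⁻¹ • Pi.single i 1 - ((v i)⁻¹ * w i) • g, g, ?_, ?_, hgv, hgw⟩
  · rw [sub_dotProduct, smul_dotProduct, smul_dotProduct, hgv, smul_zero, sub_zero, single_one_dotProduct, smul_eq_mul,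
      inv_mul_cancel₀ hi]
  · rw [sub_dotProduct, smul_dotProduct, smul_dotProduct, hgw, single_one_dotProduct, smul_eq_mul, smul_eq_mul, mul_one,
      sub_self]

variable {S : Type} [Group S] [TopologicalSpace S] (Q : SG K m S)

theorem SG.inj {g h : S} (e : Q.φ g = Q.φ h) : g = h := Q.emb.injective e

theorem SG.mul_inv (g : S) : Q.φ g * Q.φ g⁻¹ = 1 := by rw [← map_mul, mul_inv_cancel, map_one]

theorem SG.inv_mul (g : S) : Q.φ g⁻¹ * Q.φ g = 1 := by rw [← map_mul, inv_mul_cancel, map_one]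

/-- `T(v, f)` is in the subgroup -/
def SG.In (N : Subgroup S) (v f : Fin m → K) : Prop := ∃ g ∈ N, Q.φ g = 1 + vecMulVec v f

theorem SG.inv_tv {g : S} {v f : Fin m → K} (h : f ⬝ᵥ v = 0) (hg : Q.φ g = 1 + vecMulVec v f) :
    Q.φ g⁻¹ = 1 - vecMulVec v f := by
  have h1 : (1 + vecMulVec v f) * (1 - vecMulVec v f) = 1 := by
    have h2 := tv_mul (f := f) (g := -f) h
    rw [add_neg_cancel] at h2
    have h3 : vecMulVec v (0 : Fin m → K) = 0 := by
      refine Matrix.ext fun i j => ?_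
      rw [vecMulVec_apply, Pi.zero_apply, mul_zero]
      rfl
    rw [h3, add_zero, vecMulVec_neg, ← sub_eq_add_neg] at h2
    exact h2
  calc Q.φ g⁻¹ = Q.φ g⁻¹ * ((1 + vecMulVec v f) * (1 - vecMulVec v f)) := by rw [h1, Matrix.mul_one]
    _ = Q.φ g⁻¹ * Q.φ g * (1 - vecMulVec v f) := by rw [← Matrix.mul_assoc, hg]
    _ = _ := by rw [Q.inv_mul, Matrix.one_mul]

theorem SG.In.add {N : Subgroup S} {v f g : Fin m → K} (hf : f ⬝ᵥ v = 0) (h : Q.In N v f) (h' : Q.In N v g) :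
    Q.In N v (f + g) := by
  obtain ⟨a, ha, ha'⟩ := h
  obtain ⟨b, hb, hb'⟩ := h'
  exact ⟨a * b, N.mul_mem ha hb, by rw [map_mul, ha', hb', tv_mul hf]⟩

theorem SG.In.zero (N : Subgroup S) (v : Fin m → K) : Q.In N v 0 := by
  refine ⟨1, N.one_mem, ?_⟩
  have h3 : vecMulVec v (0 : Fin m → K) = 0 := by
    refine Matrix.ext fun i j => ?_
    rw [vecMulVec_apply, Pi.zero_apply, mul_zero]
    rfl
  rw [map_one, h3, add_zero]

theorem SG.In.nsmul {N : Subgroup S} {v f : Fin m → K} (hf : f ⬝ᵥ v = 0) (h : Q.In N v f) (n : ℕ) :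
    Q.In N v (n • f) := by
  induction n with
  | zero =>
    rw [zero_smul]
    exact SG.In.zero Q N v
  | succ n ih =>
    rw [succ_nsmul]
    refine SG.In.add Q ?_ ih h
    rw [smul_dotProduct, hf, smul_zero]

theorem SG.In.conj {N : Subgroup S} (hN : N.Normal) {v f : Fin m → K} (h : Q.In N v f) (s : S) :
    Q.In N (Q.φ s *ᵥ v) (f ᵥ* Q.φ s⁻¹) := by
  obtain ⟨a, ha, ha'⟩ := h
  refine ⟨s * a * s⁻¹, hN.conj_mem a ha s, ?_⟩
  rw [map_mul, map_mul, ha', Matrix.mul_add, Matrix.add_mul, Matrix.mul_one, Q.mul_inv, mul_vecMulVec, vecMulVec_mul]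

/-- the commutator of two transvections, the first in `N` -/
theorem SG.In.comm {N : Subgroup S} (hN : N.Normal) {a f b g : Fin m → K} (hf : f ⬝ᵥ a = 0) (hg : g ⬝ᵥ b = 0)
    (hga : g ⬝ᵥ a = 0) (h : Q.In N a f) : Q.In N a ((f ⬝ᵥ b) • g) := by
  obtain ⟨x, hx, hx'⟩ := h
  obtain ⟨y, hy⟩ := Q.tv b g hg
  refine ⟨x * y * x⁻¹ * y⁻¹, ?_, ?_⟩
  · have h1 : x * y * x⁻¹ * y⁻¹ = x * (y * x⁻¹ * y⁻¹) := by group
    rw [h1]
    exact N.mul_mem hx (hN.conj_mem _ (N.inv_mem hx) y)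
  · rw [map_mul, map_mul, map_mul, hx', hy, Q.inv_tv hf hx', Q.inv_tv hg hy, comm_id, vecMulVec_mul_vecMulVec]
    · rw [vecMulVec_mul_vecMulVec, hf, zero_smul]
      refine Matrix.ext fun i j => ?_
      rw [vecMulVec_apply, Pi.zero_apply, mul_zero]
      rfl
    · rw [vecMulVec_mul_vecMulVec, hg, zero_smul]
      refine Matrix.ext fun i j => ?_
      rw [vecMulVec_apply, Pi.zero_apply, mul_zero]
      rfl
    · rw [vecMulVec_mul_vecMulVec, hga, zero_smul]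
      refine Matrix.ext fun i j => ?_
      rw [vecMulVec_apply, Pi.zero_apply, mul_zero]
      rfl

/-- the diagonal element `diag(2, 1/2)` in the plane of `v`, `w` -/
theorem SG.exists_h {v w f g : Fin m → K} (h1 : f ⬝ᵥ v = 1) (h2 : f ⬝ᵥ w = 0) (h3 : g ⬝ᵥ v = 0) (h4 : g ⬝ᵥ w = 1) :
    ∃ h : S, ∀ x, Q.φ h *ᵥ x = x + rs v (f ⬝ᵥ x) + rs w (-(2⁻¹ * (g ⬝ᵥ x))) := by
  have h20 : (2 : K) ≠ 0 := by
    have : ‖(2 : K)‖ = 2 := by
      exact nrm 2
    intro h0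
    rw [h0, norm_zero] at this
    norm_num at this
  obtain ⟨a, ha⟩ := Q.tv v (-g) (by rw [neg_dotProduct, h3, neg_zero])
  obtain ⟨b, hb⟩ := Q.tv w f h2
  obtain ⟨c, hc⟩ := Q.tv v ((2 : K) • g) (by rw [smul_dotProduct, h3, smul_zero])
  obtain ⟨d, hd⟩ := Q.tv w (-((2 : K)⁻¹ • f)) (by rw [neg_dotProduct, smul_dotProduct, h2, smul_zero, neg_zero])
  refine ⟨c * d * c * (a * b * a), fun x => ?_⟩
  have key : ∀ (a b : K), f ⬝ᵥ (x + rs v a + rs w b) = f ⬝ᵥ x + a ∧ g ⬝ᵥ (x + rs v a + rs w b) = g ⬝ᵥ x + b := by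
    intro a b
    rw [dotProduct_add, dotProduct_add, dotProduct_add, dotProduct_add, dot_rs, dot_rs, dot_rs, dot_rs, h1, h2, h3, h4]
    simp
  have kv : ∀ (a b c : K), x + rs v a + rs w b + rs v c = x + rs v (a + c) + rs w b := by
    intro a b c
    rw [rs_add]
    abel
  have kw : ∀ (a b c : K), x + rs v a + rs w b + rs w c = x + rs v a + rs w (b + c) := by
    intro a b c
    rw [rs_add]
    abel
  have e0 : Q.φ (c * d * c * (a * b * a)) *ᵥ x =
      Q.φ c *ᵥ (Q.φ d *ᵥ (Q.φ c *ᵥ (Q.φ a *ᵥ (Q.φ b *ᵥ (Q.φ a *ᵥ x))))) := by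
    simp only [map_mul, Matrix.mulVec_mulVec]
    simp only [Matrix.mul_assoc]
  obtain ⟨α, hα⟩ : ∃ α, α = f ⬝ᵥ x := ⟨_, rfl⟩
  obtain ⟨β, hβ⟩ : ∃ β, β = g ⬝ᵥ x := ⟨_, rfl⟩
  have s1 : Q.φ a *ᵥ x = x + rs v (-β) + rs w 0 := by
    rw [ha, tv_mulVec, neg_dotProduct, rs_zero, add_zero, hβ]
  have s2 : Q.φ b *ᵥ (x + rs v (-β) + rs w 0) = x + rs v (-β) + rs w (α - β) := by
    rw [hb, tv_mulVec, (key _ _).1, kw, ← hα]
    congr 2
    abel
  have s3 : Q.φ a *ᵥ (x + rs v (-β) + rs w (α - β)) = x + rs v (-β - α) + rs w (α - β) := by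
    rw [ha, tv_mulVec, neg_dotProduct, (key _ _).2, kv, ← hβ]
    congr 3
    abel
  have s4 : Q.φ c *ᵥ (x + rs v (-β - α) + rs w (α - β)) = x + rs v (α - β) + rs w (α - β) := by
    rw [hc, tv_mulVec, smul_dotProduct, smul_eq_mul, (key _ _).2, kv, ← hβ]
    congr 3
    rw [two_mul]
    abel
  have s5 : Q.φ d *ᵥ (x + rs v (α - β) + rs w (α - β)) = x + rs v (α - β) + rs w (-(2⁻¹ * β)) := by
    rw [hd, tv_mulVec, neg_dotProduct, smul_dotProduct, smul_eq_mul, (key _ _).1, kw, ← hα]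
    congr 2
    have e1 : α - β = 2⁻¹ * (2 * (α - β)) := by rw [← mul_assoc, inv_mul_cancel₀ h20, one_mul]
    nth_rewrite 1 [e1]
    rw [← mul_neg, ← mul_neg, ← mul_add]
    congr 1
    rw [two_mul]
    abel
  have s6 : Q.φ c *ᵥ (x + rs v (α - β) + rs w (-(2⁻¹ * β))) = x + rs v α + rs w (-(2⁻¹ * β)) := by
    rw [hc, tv_mulVec, smul_dotProduct, smul_eq_mul, (key _ _).2, kv, ← hβ]
    congr 3
    rw [mul_add, mul_neg, ← mul_assoc, mul_inv_cancel₀ h20, one_mul, two_mul]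
    abel
  rw [e0, s1, s2, s3, s4, s5, s6, hα, hβ]

/-- The normal closure of an element which is not scalar contains a transvection. -/
theorem SG.exists_tv {N : Subgroup S} (hN : N.Normal) {t : S} (ht : t ∈ N) {v : Fin m → K}
    (hv : ∀ c, Q.φ t *ᵥ v ≠ rs v c) : ∃ f0 : Fin m → K, v ≠ 0 ∧ f0 ≠ 0 ∧ f0 ⬝ᵥ v = 0 ∧ Q.In N v f0 := by
  have h20 : ‖(2 : K)‖ = 2 := by
    exact nrm 2
  have h2 : (2 : K) ≠ 0 := by
    intro h0
    rw [h0, norm_zero] at h20
    norm_num at h20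
  have hv0 : v ≠ 0 := by
    rintro rfl
    apply hv 0
    rw [Matrix.mulVec_zero, rs_zero]
  obtain ⟨w, hw⟩ : ∃ w, w = Q.φ t⁻¹ *ᵥ v := ⟨_, rfl⟩
  have htw : Q.φ t *ᵥ w = v := by
    rw [hw, Matrix.mulVec_mulVec, Q.mul_inv, Matrix.one_mulVec]
  have hwv : ∀ c, w ≠ rs v c := by
    intro c hc
    have h1 : v = rs (Q.φ t *ᵥ v) c := by
      rw [← mulVec_rs, ← hc, htw]
    by_cases hc0 : c = 0
    · rw [hc0, rs_zero] at h1
      exact hv0 h1
    · apply hv c⁻¹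
      nth_rewrite 2 [h1]
      rw [rs_rs, mul_inv_cancel₀ hc0, rs_one]
  obtain ⟨f, g, h1, h2', h3, h4⟩ := exists_dual hv0 hwv
  obtain ⟨h, hh⟩ := Q.exists_h h1 h2' h3 h4
  -- the action of `h`
  have hhv : Q.φ h *ᵥ v = rs v 2 := by
    rw [hh, h1, h3, mul_zero, neg_zero, rs_zero, rs_one, add_zero, ← rs_one v, ← rs_add, rs_rs, one_mul]
    norm_num
  have hhw : Q.φ h *ᵥ w = rs w 2⁻¹ := by
    rw [hh, h2', h4, mul_one, rs_zero, add_zero]
    nth_rewrite 1 [← rs_one w]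
    rw [← rs_add]
    congr 1
    have e : (1 : K) = 2⁻¹ + 2⁻¹ := by
      rw [← mul_two, inv_mul_cancel₀ h2]
    nth_rewrite 1 [e]
    abel
  have hhv' : Q.φ h⁻¹ *ᵥ v = rs v 2⁻¹ := by
    have e1 : Q.φ h⁻¹ *ᵥ (Q.φ h *ᵥ v) = v := by
      rw [Matrix.mulVec_mulVec, Q.inv_mul, Matrix.one_mulVec]
    rw [hhv, mulVec_rs] at e1
    have e2 := congrArg (fun z => rs z 2⁻¹) e1
    simp only [rs_rs] at e2
    rwa [mul_inv_cancel₀ h2, rs_one] at e2
  have hhw' : Q.φ h⁻¹ *ᵥ w = rs w 2 := by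
    have e1 : Q.φ h⁻¹ *ᵥ (Q.φ h *ᵥ w) = w := by
      rw [Matrix.mulVec_mulVec, Q.inv_mul, Matrix.one_mulVec]
    rw [hhw, mulVec_rs] at e1
    have e2 := congrArg (fun z => rs z 2) e1
    simp only [rs_rs] at e2
    rwa [inv_mul_cancel₀ h2, rs_one] at e2
  -- the commutator
  obtain ⟨p, hp⟩ : ∃ p : S, p = h * t * h⁻¹ * t⁻¹ := ⟨_, rfl⟩
  have hpN : p ∈ N := by
    rw [hp]
    exact N.mul_mem (hN.conj_mem t ht h) (N.inv_mem ht)
  have hp1 : ∀ x, Q.φ p *ᵥ (Q.φ t *ᵥ x) = Q.φ h *ᵥ (Q.φ t *ᵥ (Q.φ h⁻¹ *ᵥ x)) := by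
    intro x
    rw [hp]
    simp only [Matrix.mulVec_mulVec, ← map_mul]
    congr 2
    group
  have hpv : Q.φ p *ᵥ v = rs v 4 := by
    nth_rewrite 1 [← htw]
    rw [hp1, hhw', mulVec_rs, htw, mulVec_rs, hhv, rs_rs]
    norm_num
  obtain ⟨x, hx⟩ : ∃ x, x = Q.φ t *ᵥ v := ⟨_, rfl⟩
  have hpx : Q.φ p *ᵥ x = rs (Q.φ h *ᵥ x) 2⁻¹ := by
    rw [hx, hp1, hhv', mulVec_rs, mulVec_rs]
  -- `p x - 4 x` is not in the line
  have hy : ∀ c, Q.φ p *ᵥ x - rs x 4 ≠ rs v c := by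
    intro c hc
    have e1 : Q.φ p *ᵥ x = rs v c + rs x 4 := by
      rw [← hc]
      abel
    rw [hpx, hh, add_rs, add_rs, rs_rs, rs_rs] at e1
    have e2 := congrArg (fun z => g ⬝ᵥ z) e1
    simp only [dotProduct_add, dot_rs, h3, h4, zero_mul, zero_add, add_zero, one_mul] at e2
    obtain ⟨β, hβ⟩ : ∃ β, β = g ⬝ᵥ x := ⟨_, rfl⟩
    rw [← hβ] at e2
    have cm2 : ∀ z : K, z * 2⁻¹ = 2⁻¹ * z := fun z => ((Commute.ofNat_right z 2).inv_right₀).eq
    have cm4 : ∀ z : K, z * 4 = 4 * z := fun z => (Commute.ofNat_right z 4).eq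
    have e3 : (15 : K) * β = 0 := by
      have e4 := congrArg (fun z => 4 * z) e2
      simp only [mul_add, mul_neg, neg_mul] at e4
      rw [cm2, cm2, cm4] at e4
      have e5 : (4 : K) * (2⁻¹ * β) = 2 * β := by
        rw [← mul_assoc]
        congr 1
        have : (4 : K) = 2 * 2 := by norm_num
        rw [this, mul_assoc, mul_inv_cancel₀ h2, mul_one]
      have e6 : (4 : K) * (2⁻¹ * (2⁻¹ * β)) = β := by
        rw [← mul_assoc, ← mul_assoc]
        have : (4 : K) * 2⁻¹ * 2⁻¹ = 1 := by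
          have : (4 : K) = 2 * 2 := by norm_num
          rw [this, mul_assoc 2 2, mul_inv_cancel₀ h2, mul_one, mul_inv_cancel₀ h2]
        rw [this, one_mul]
      rw [e5, e6] at e4
      have e7 : (4 : K) * (4 * β) = 16 * β := by
        rw [← mul_assoc]
        norm_num
      rw [e7] at e4
      have e8 : (15 : K) * β = 16 * β - (2 * β + -β) := by
        have a1 : (16 : K) = 15 + 1 := by norm_num
        rw [a1, add_mul, one_mul, two_mul]
        abel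
      rw [e8, ← e4]
      abel
    have hβ0 : β = 0 := by
      rcases mul_eq_zero.1 e3 with h0 | h0
      · exfalso
        have : ‖(15 : K)‖ = 15 := by
          exact nrm 15
        rw [h0, norm_zero] at this
        norm_num at this
      · exact h0
    rw [← hβ, hβ0, mul_zero, neg_zero, zero_mul, rs_zero, add_zero] at e1
    -- `x` is in the line
    have e4 : rs x (4 - 2⁻¹) = rs v ((f ⬝ᵥ x) * 2⁻¹ - c) := by
      rw [sub_eq_add_neg, sub_eq_add_neg, rs_add, rs_add]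
      have n1 : ∀ (z : Fin m → K) (c : K), rs z (-c) = -rs z c := by
        intro z c
        unfold rs
        funext i
        simp
      rw [n1, n1]
      have e5 : rs x 4 = rs x 2⁻¹ + rs v ((f ⬝ᵥ x) * 2⁻¹) - rs v c := by
        rw [e1]
        abel
      rw [e5]
      abel
    have h7 : (4 - 2⁻¹ : K) ≠ 0 := by
      intro h0
      have e5 : (4 : K) = 2⁻¹ := sub_eq_zero.1 h0
      have e6 : (8 : K) = 1 := by
        have this : (4 : K) * 2 = 2⁻¹ * 2 := congrArg (fun z => z * 2) e5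
        rw [inv_mul_cancel₀ h2] at this
        rw [← this]
        norm_num
      have e7 : ‖(8 : K)‖ = 8 := by
        exact nrm 8
      rw [e6, norm_one] at e7
      norm_num at e7
    apply hv (((f ⬝ᵥ x) * 2⁻¹ - c) * (4 - 2⁻¹)⁻¹)
    rw [← hx, ← rs_rs, ← e4, rs_rs, mul_inv_cancel₀ h7, rs_one]
  obtain ⟨-, f1, -, -, h5, h6⟩ := exists_dual hv0 hy
  -- the transvection
  obtain ⟨a, ha⟩ := Q.tv v f1 h5
  have hf1p : (f1 ᵥ* Q.φ p⁻¹) ⬝ᵥ v = 0 := by
    have e1 : Q.φ p⁻¹ *ᵥ (Q.φ p *ᵥ v) = v := by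
      rw [Matrix.mulVec_mulVec, Q.inv_mul, Matrix.one_mulVec]
    rw [hpv, mulVec_rs] at e1
    have e2 := congrArg (fun z => f1 ⬝ᵥ z) e1
    simp only [dot_rs, h5] at e2
    rw [← Matrix.dotProduct_mulVec]
    rcases mul_eq_zero.1 e2 with h0 | h0
    · exact h0
    · exfalso
      have : ‖(4 : K)‖ = 4 := by
        exact nrm 4
      rw [h0, norm_zero] at this
      norm_num at this
  refine ⟨(4 : K) • (f1 ᵥ* Q.φ p⁻¹) - f1, hv0, ?_, ?_, p * a * p⁻¹ * a⁻¹, ?_, ?_⟩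
  · intro h0
    have e1 := congrArg (fun z => z ⬝ᵥ (Q.φ p *ᵥ x)) h0
    simp only [sub_dotProduct, smul_dotProduct, zero_dotProduct] at e1
    rw [← Matrix.dotProduct_mulVec, Matrix.mulVec_mulVec, Q.inv_mul, Matrix.one_mulVec, smul_eq_mul] at e1
    rw [dotProduct_sub, dot_rs] at h6
    have cm4 : (f1 ⬝ᵥ x) * 4 = 4 * (f1 ⬝ᵥ x) := (Commute.ofNat_right _ 4).eq
    rw [cm4] at h6
    have e2 : (0 : K) = -1 := by
      rw [← e1, ← h6]
      abel
    have e3 : (1 : K) = 0 := by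
      rw [← neg_neg (1 : K), ← e2, neg_zero]
    exact one_ne_zero e3
  · rw [sub_dotProduct, smul_dotProduct, hf1p, h5, smul_zero, sub_zero]
  · have e1 : p * a * p⁻¹ * a⁻¹ = p * (a * p⁻¹ * a⁻¹) := by group
    rw [e1]
    exact N.mul_mem hpN (hN.conj_mem _ (N.inv_mem hpN) a)
  · rw [map_mul, map_mul, map_mul, ha, Q.inv_tv h5 ha, Matrix.mul_add, Matrix.add_mul, Matrix.mul_one, Q.mul_inv,
      mul_vecMulVec, vecMulVec_mul, hpv, vmv_rs, Matrix.add_mul, Matrix.one_mul, Matrix.mul_sub, Matrix.mul_one,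
      vecMulVec_mul_vecMulVec, smul_dotProduct, hf1p, smul_zero, zero_smul]
    have h3 : vecMulVec v (0 : Fin m → K) = 0 := by
      refine Matrix.ext fun i j => ?_
      rw [vecMulVec_apply, Pi.zero_apply, mul_zero]
      rfl
    rw [h3, sub_zero, vecMulVec_sub]
    abel

end Pool.Agent.Helper42.TZ
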